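import Mathlib

/-!
# Minimum covers of sets of LCM `p`-groups, `p` odd

For an odd prime `p` and `k ≥ 2` let `W` be the wreath product of the cyclic group of order `p ^ k`
with the cyclic group of order `p`, let `A = (C_{p ^ k}) ^ p`, and let `F` be the subgroup of `W`
of the elements `(f, s)` with `f ^ p = 1` and `∏ f = 1`. Then `F` is a nonabelian group of exponent
`p`. We show that no minimum cover of `{F, A}` is an LCM group.

Idea of the proof. The order of a minimum cover `G` is `p * |A|`, so that we may assume that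
`A ≤ G` and `F ≤ G`, where `A` has index `p`. Take `x ∈ F` outside `A`. If `G` is an LCM group then
the elements `x a x⁻¹ a⁻¹ = x (a x⁻¹ a⁻¹)` have order dividing `p`, for `a ∈ A`. As they are in `A`,
which is abelian, `x` commutes with `a ^ p`. So `x` commutes with all elements of `F ∩ A`, as these
are `p`-th powers in `A`, and `F` is abelian, a contradiction.
-/

set_option autoImplicit false

namespace Pool.Agent.Results.MP_8c719a_al.MinimumCovers

/-- The set `LCM(G)` of all `x` such that the order of `x ^ n * y` divides the least common multiple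
of the orders of `x ^ n` and of `y`, for all positive integers `n` and all `y`. -/
def lcmSet (G : Type) [Group G] : Set G :=
  {x | ∀ n : ℕ, 0 < n → ∀ y : G, orderOf (x ^ n * y) ∣ Nat.lcm (orderOf (x ^ n)) (orderOf y)}

/-- `G` is an LCM group if `LCM(G) = G`. -/
def IsLCM (G : Type) [Group G] : Prop := lcmSet G = Set.univ

/-- Two groups are equivalent if they are isomorphic. -/
def isoSetoid : Setoid GrpCat.{0} where
  r G H := Nonempty (G ≃* H)
  iseqv :=
    { refl := fun G => ⟨MulEquiv.refl G⟩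
      symm := fun ⟨e⟩ => ⟨e.symm⟩
      trans := fun ⟨e⟩ ⟨f⟩ => ⟨e.trans f⟩ }

/-- The isomorphism classes of groups. -/
def IsoClass : Type 1 := Quotient isoSetoid

/-- The isomorphism class of a group. -/
def cls (G : Type) [Group G] : IsoClass := Quotient.mk isoSetoid (GrpCat.of G)

/-- `G` contains a subgroup isomorphic to `F` for each member `F` of the finite set `𝓕` of
isomorphism classes. -/
def IsCover (𝓕 : Finset IsoClass) (G : Type) [Group G] : Prop :=
  ∀ (F : Type) [Group F], cls F ∈ 𝓕 → ∃ H : Subgroup G, Nonempty (F ≃* H)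

/-- `G` is a finite cover of `𝓕` of the least possible order among the finite covers of `𝓕`. -/
def IsMinCover (𝓕 : Finset IsoClass) (G : Type) [Group G] : Prop :=
  Finite G ∧ IsCover 𝓕 G ∧ ∀ (H : Type) [Group H], Finite H → IsCover 𝓕 H →
    Nat.card G ≤ Nat.card H

theorem cls_eq {G H : Type} [Group G] [Group H] : cls G = cls H ↔ Nonempty (G ≃* H) :=
  Quotient.eq (r := isoSetoid)

theorem isLCM_congr {G H : Type} [Group G] [Group H] (e : G ≃* H) (h : IsLCM G) : IsLCM H := by
  apply Set.eq_univ_of_forall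
  intro y n hn z
  have h1 : e.symm y ∈ lcmSet G := by
    have : lcmSet G = Set.univ := h
    rw [this]
    trivial
  have h2 := h1 n hn (e.symm z)
  rwa [← map_pow, ← map_mul, MulEquiv.orderOf_eq, MulEquiv.orderOf_eq, MulEquiv.orderOf_eq] at h2

theorem isLCM_comm {G : Type} [Group G] (h : ∀ x y : G, x * y = y * x) : IsLCM G := by
  apply Set.eq_univ_of_forall
  intro x n _ y
  exact Commute.orderOf_mul_dvd_lcm (h _ _)

theorem isLCM_exp {G : Type} [Group G] {p : ℕ} (hp : p.Prime) (h : ∀ x : G, x ^ p = 1) :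
    IsLCM G := by
  apply Set.eq_univ_of_forall
  intro x n _ y
  have h1 : ∀ z : G, orderOf z = 1 ∨ orderOf z = p := fun z =>
    (Nat.dvd_prime hp).1 (orderOf_dvd_of_pow_eq_one (h z))
  have h2 : orderOf (x ^ n * y) ∣ p := orderOf_dvd_of_pow_eq_one (h _)
  rcases h1 (x ^ n) with h3 | h3
  · rw [orderOf_eq_one_iff.1 h3, one_mul]
    exact Nat.dvd_lcm_right _ _
  · rw [h3]
    exact h2.trans (Nat.dvd_lcm_left _ _)

theorem mul_pow_one {G : Type} [Group G] (h : IsLCM G) {L : ℕ} {a b : G} (ha : a ^ L = 1)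
    (hb : b ^ L = 1) : (a * b) ^ L = 1 := by
  have h1 : a ∈ lcmSet G := by
    have : lcmSet G = Set.univ := h
    rw [this]
    trivial
  have h2 := h1 1 one_pos b
  rw [pow_one] at h2
  rw [← orderOf_dvd_iff_pow_eq_one]
  exact h2.trans (Nat.lcm_dvd (orderOf_dvd_of_pow_eq_one ha) (orderOf_dvd_of_pow_eq_one hb))

/-- the main argument -/
theorem main {G : Type} [Group G] [Finite G] {p : ℕ} (hp : p.Prime) (hG : IsLCM G)
    (A F : Subgroup G) [A.Normal] (hAi : A.index = p) (hAc : ∀ a ∈ A, ∀ b ∈ A, a * b = b * a)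
    (hAp : ∀ a ∈ A, a ^ p = 1 → ∃ b ∈ A, b ^ p = a) (hF : ∀ x ∈ F, x ^ p = 1) :
    ∀ x ∈ F, ∀ y ∈ F, x * y = y * x := by
  have := Fact.mk hp
  by_cases hFA : F ≤ A
  · exact fun x hx y hy => hAc x (hFA hx) y (hFA hy)
  · obtain ⟨x, hxF, hxA⟩ := SetLike.not_le_iff_exists.1 hFA
    have hxp := hF x hxF
    -- `x` commutes with the `p`-th powers of the elements of `A`
    have h1 : ∀ a ∈ A, Commute x (a ^ p) := by
      intro a ha
      have hc1 : (x * (a * x⁻¹ * a⁻¹)) ^ p = 1 := by
        apply mul_pow_one hG hxp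
        rw [conj_pow, inv_pow, hxp, inv_one, mul_one, mul_inv_cancel]
      have hc2 : x * (a * x⁻¹ * a⁻¹) ∈ A := by
        have : x * (a * x⁻¹ * a⁻¹) = (x * a * x⁻¹) * a⁻¹ := by group
        rw [this]
        exact A.mul_mem (Subgroup.Normal.conj_mem inferInstance a ha x) (A.inv_mem ha)
      have hc3 : Commute (x * (a * x⁻¹ * a⁻¹)) a := hAc _ hc2 _ ha
      have hc4 : x * (a * x⁻¹ * a⁻¹) * a = x * a * x⁻¹ := by group
      have hc5 : (x * a * x⁻¹) ^ p = a ^ p := by
        rw [← hc4, hc3.mul_pow, hc1, one_mul]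
      rw [conj_pow] at hc5
      have hc6 : x * a ^ p = a ^ p * x := by
        conv_rhs => rw [← hc5]
        group
      exact hc6
    have h2 : ∀ b ∈ A, b ∈ F → Commute x b := by
      intro b hb hbF
      obtain ⟨c, hc, rfl⟩ := hAp b hb (hF b hbF)
      exact h1 c hc
    -- every element of `F` is `x ^ n * b` with `b` in `A`
    have h3 : ∀ f ∈ F, ∃ n : ℕ, ∃ b ∈ A, b ∈ F ∧ f = x ^ n * b := by
      intro f hf
      have e1 : Nat.card (G ⧸ A) = p := by rw [← hAi]; rfl
      have e2 : (x : G ⧸ A) ≠ 1 := by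
        intro h
        exact hxA ((QuotientGroup.eq_one_iff x).1 h)
      have e3 : ((f : G) : G ⧸ A) ∈ Subgroup.zpowers (x : G ⧸ A) :=
        mem_zpowers_of_prime_card e1 e2
      rw [← mem_powers_iff_mem_zpowers] at e3
      obtain ⟨n, hn⟩ := e3
      change (x : G ⧸ A) ^ n = (f : G ⧸ A) at hn
      rw [← QuotientGroup.mk_pow] at hn
      refine ⟨n, (x ^ n)⁻¹ * f, QuotientGroup.eq.1 hn, ?_, ?_⟩
      · exact F.mul_mem (F.inv_mem (F.pow_mem hxF n)) hf
      · rw [mul_inv_cancel_left]
    intro f hf g hg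
    obtain ⟨m, b, hbA, hbF, rfl⟩ := h3 f hf
    obtain ⟨n, c, hcA, hcF, rfl⟩ := h3 g hg
    have hxb := h2 b hbA hbF
    have hxc := h2 c hcA hcF
    have hbc : Commute b c := hAc b hbA c hcA
    have h4 : Commute (x ^ m) (x ^ n * c) := ((Commute.refl x).pow_pow m n).mul_right
      (hxc.pow_left m)
    have h5 : Commute b (x ^ n * c) := (hxb.symm.pow_right n).mul_right hbc
    exact h4.mul_left h5

section model

variable (p k : ℕ)

/-- the cyclic group of order `p ^ k` -/
abbrev D : Type := Multiplicative (ZMod (p ^ k))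

/-- the cyclic group of order `p` -/
abbrev Q : Type := Multiplicative (ZMod p)

/-- the wreath product -/
abbrev W : Type := RegularWreathProduct (D p k) (Q p)

/-- the base group of the wreath product -/
abbrev A : Type := Q p → D p k

variable [Fact p.Prime]

instance : Fintype (Q p) := inferInstanceAs (Fintype (ZMod p))

instance : Finite (D p k) := by
  haveI : NeZero (p ^ k) := ⟨pow_ne_zero _ (Fact.out : p.Prime).ne_zero⟩
  exact inferInstanceAs (Finite (ZMod (p ^ k)))

theorem card_Q : Nat.card (Q p) = p := Nat.card_zmod p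

theorem card_D : Nat.card (D p k) = p ^ k := Nat.card_zmod (p ^ k)

theorem card_A : Nat.card (A p k) = (p ^ k) ^ p := by
  rw [Nat.card_fun, card_D p k, card_Q p]

theorem card_W : Nat.card (W p k) = (p ^ k) ^ p * p := by
  rw [RegularWreathProduct.card, card_D p k, card_Q p]

/-- the nonabelian group of exponent `p` -/
def F : Subgroup (W p k) where
  carrier := {w | (∀ x, w.left x ^ p = 1) ∧ ∏ x, w.left x = 1}
  one_mem' := by
    refine ⟨fun x => ?_, ?_⟩
    · simp
    · simp
  mul_mem' := by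
    rintro a b ⟨ha, ha'⟩ ⟨hb, hb'⟩
    refine ⟨fun x => ?_, ?_⟩
    · rw [RegularWreathProduct.mul_left, Pi.mul_apply, mul_pow, ha, hb, one_mul]
    · have h1 : ∏ x, (a * b).left x = (∏ x, a.left x) * ∏ x, b.left (a.right⁻¹ * x) := by
        rw [← Finset.prod_mul_distrib]
        rfl
      rw [h1, ha', one_mul]
      have h2 := Equiv.prod_comp (Equiv.mulLeft a.right⁻¹) b.left
      simp only [Equiv.coe_mulLeft] at h2
      rw [h2, hb']
  inv_mem' := by
    rintro a ⟨ha, ha'⟩
    refine ⟨fun x => ?_, ?_⟩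
    · change (a.left (a.right * x))⁻¹ ^ p = 1
      rw [inv_pow, ha, inv_one]
    · have h1 : ∏ x, (a⁻¹).left x = ∏ x, (a.left (a.right * x))⁻¹ := rfl
      rw [h1, Finset.prod_inv_distrib]
      have h2 := Equiv.prod_comp (Equiv.mulLeft a.right) a.left
      simp only [Equiv.coe_mulLeft] at h2
      rw [h2, ha', inv_one]

variable {p k}

theorem pow_left (w : W p k) (n : ℕ) (x : Q p) :
    (w ^ n).left x = ∏ j ∈ Finset.range n, w.left ((w.right⁻¹) ^ j * x) ∧
      (w ^ n).right = w.right ^ n := by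
  induction n generalizing x with
  | zero => simp
  | succ n ih =>
    rw [pow_succ, RegularWreathProduct.mul_left, RegularWreathProduct.mul_right, Pi.mul_apply,
      (ih x).1, (ih x).2, Finset.prod_range_succ]
    refine ⟨?_, (pow_succ _ _).symm⟩
    rw [inv_pow]

theorem F_exp (w : W p k) (hw : w ∈ F p k) : w ^ p = 1 := by
  have hp : p.Prime := Fact.out
  obtain ⟨h1, h2⟩ := hw
  have hr : w.right ^ p = 1 := by
    have := pow_card_eq_one' (x := w.right)
    rwa [card_Q] at this
  apply RegularWreathProduct.ext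
  · funext x
    rw [(pow_left w p x).1, RegularWreathProduct.one_left, Pi.one_apply]
    by_cases hs : w.right = 1
    · rw [hs]
      simp [h1]
    · have ho : orderOf (w.right⁻¹) = p := by
        rw [orderOf_inv]
        exact orderOf_eq_prime hr hs
      have hinj : Set.InjOn (fun j : ℕ => (w.right⁻¹) ^ j * x) (Finset.range p : Set ℕ) := by
        intro i hi j hj hij
        have h3 : (w.right⁻¹) ^ i = (w.right⁻¹) ^ j := mul_right_cancel hij
        rw [Finset.coe_range, Set.mem_Iio, ← ho] at hi hj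
        exact pow_injOn_Iio_orderOf hi hj h3
      have himg : (Finset.range p).image (fun j : ℕ => (w.right⁻¹) ^ j * x) = Finset.univ := by
        apply Finset.eq_univ_of_card
        rw [Finset.card_image_of_injOn hinj, Finset.card_range, ← Nat.card_eq_fintype_card, card_Q]
      rw [← h2, ← himg, Finset.prod_image hinj]
  · rw [(pow_left w p 1).2, hr]
    rfl

theorem F_noncomm (hp2 : p ≠ 2) (hk : k ≠ 0) :
    ∃ a ∈ F p k, ∃ b ∈ F p k, a * b ≠ b * a := by
  classical
  have hp : p.Prime := Fact.out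
  have hdvd : p ∣ Nat.card (D p k) := by
    rw [card_D]
    exact dvd_pow_self p hk
  obtain ⟨z, hz⟩ := exists_prime_orderOf_dvd_card' p hdvd
  have hzp : z ^ p = 1 := by
    have := pow_orderOf_eq_one z
    rwa [hz] at this
  have hs : ∃ s : Q p, s ≠ 1 := by
    haveI : Nontrivial (Q p) := inferInstanceAs (Nontrivial (ZMod p))
    exact exists_ne 1
  obtain ⟨s, hs⟩ := hs
  let f : Q p → D p k := fun x => if x = 1 then z else if x = s then z⁻¹ else 1
  refine ⟨⟨f, 1⟩, ⟨?_, ?_⟩, ⟨1, s⟩, ⟨?_, ?_⟩, ?_⟩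
  · intro x
    change f x ^ p = 1
    simp only [f]
    split_ifs
    · exact hzp
    · rw [inv_pow, hzp, inv_one]
    · exact one_pow p
  · change ∏ x, f x = 1
    have h1 : ∀ x : Q p, f x = (if x = 1 then z else 1) * (if x = s then z⁻¹ else 1) := by
      intro x
      simp only [f]
      split_ifs with h1 h2
      · exact absurd (h2.symm.trans h1) hs
      · rw [mul_one]
      · rw [one_mul]
      · rw [mul_one]
    rw [Finset.prod_congr rfl (fun x _ => h1 x), Finset.prod_mul_distrib]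
    rw [Finset.prod_ite_eq' Finset.univ 1 (fun _ => z), Finset.prod_ite_eq' Finset.univ s
      (fun _ => z⁻¹)]
    simp
  · intro x
    exact one_pow p
  · exact Finset.prod_const_one
  · intro h
    have h1 : ((⟨f, 1⟩ : W p k) * ⟨1, s⟩).left s = ((⟨1, s⟩ : W p k) * ⟨f, 1⟩).left s := by
      rw [h]
    rw [RegularWreathProduct.mul_left, RegularWreathProduct.mul_left] at h1
    change f s * 1 = 1 * f (s⁻¹ * s) at h1
    rw [mul_one, one_mul, inv_mul_cancel] at h1
    have e1 : f s = z⁻¹ := by simp [f, hs]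
    have e2 : f 1 = z := by simp [f]
    rw [e1, e2] at h1
    have h2 : z ^ 2 = 1 := by
      rw [pow_two]
      nth_rewrite 1 [← h1]
      exact inv_mul_cancel z
    have h3 : p ∣ 2 := by
      rw [← hz]
      exact orderOf_dvd_of_pow_eq_one h2
    exact hp2 ((Nat.prime_dvd_prime_iff_eq hp Nat.prime_two).1 h3)

theorem A_pow (hk : 2 ≤ k) (a : A p k) (ha : a ^ p = 1) : ∃ b : A p k, b ^ p = a := by
  have hp : p.Prime := Fact.out
  have h0 : ∀ z : D p k, z ^ p = 1 → ∃ y : D p k, y ^ p = z := by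
    intro z hz
    haveI : NeZero (p ^ k) := ⟨pow_ne_zero _ hp.ne_zero⟩
    set u : ZMod (p ^ k) := Multiplicative.toAdd z with hu
    have h1 : p • u = 0 := by
      have := congrArg Multiplicative.toAdd hz
      rwa [toAdd_pow, toAdd_one] at this
    have h2 : ((p * u.val : ℕ) : ZMod (p ^ k)) = 0 := by
      rw [Nat.cast_mul, ZMod.natCast_zmod_val]
      rwa [nsmul_eq_mul] at h1
    rw [ZMod.natCast_eq_zero_iff] at h2
    obtain ⟨m, rfl⟩ : ∃ m, k = m + 2 := ⟨k - 2, by omega⟩
    have h3 : p ^ (m + 1) ∣ u.val := by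
      have : p * p ^ (m + 1) ∣ p * u.val := by
        rw [← pow_succ']
        exact h2
      exact Nat.dvd_of_mul_dvd_mul_left hp.pos this
    obtain ⟨c, hc⟩ := h3
    refine ⟨Multiplicative.ofAdd (((p ^ m * c : ℕ) : ZMod (p ^ (m + 2)))), ?_⟩
    apply Multiplicative.toAdd.injective
    rw [toAdd_pow, toAdd_ofAdd, nsmul_eq_mul, ← Nat.cast_mul, ← hu]
    rw [← ZMod.natCast_zmod_val u, hc]
    congr 1
    ring
  choose g hg using fun x => h0 (a x) (by
    have := congrFun ha x
    rwa [Pi.pow_apply] at this)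
  exact ⟨g, funext fun x => hg x⟩

end model

/-- the family `{F, A}` -/
noncomputable def fam (p k : ℕ) [Fact p.Prime] : Finset IsoClass := by
  classical
  exact {cls (F p k), cls (A p k)}

theorem mem_fam {p k : ℕ} [Fact p.Prime] {G : Type} [Group G] :
    cls G ∈ fam p k ↔ Nonempty (G ≃* F p k) ∨ Nonempty (G ≃* A p k) := by
  classical
  unfold fam
  rw [Finset.mem_insert, Finset.mem_singleton, cls_eq, cls_eq]

/-- the embedding of the base group -/
def base (p k : ℕ) : A p k →* W p k where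
  toFun f := ⟨f, 1⟩
  map_one' := rfl
  map_mul' f g := by
    apply RegularWreathProduct.ext
    · funext x
      rw [RegularWreathProduct.mul_left]
      simp
    · rw [RegularWreathProduct.mul_right]
      simp

theorem cover_W (p k : ℕ) [Fact p.Prime] : IsCover (fam p k) (W p k) := by
  intro G _ hG
  rw [mem_fam] at hG
  rcases hG with ⟨⟨e⟩⟩ | ⟨⟨e⟩⟩
  · exact ⟨F p k, ⟨e⟩⟩
  · refine ⟨(base p k).range, ⟨e.trans (MonoidHom.ofInjective (f := base p k) ?_)⟩⟩
    intro a b hab
    exact congrArg RegularWreathProduct.left hab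

/-- a finite cover has order at least `p * |A|` -/
theorem card_cover {p k : ℕ} [Fact p.Prime] (hp2 : p ≠ 2) (hk : k ≠ 0) (G : Type) [Group G]
    [Finite G] (hG : IsCover (fam p k) G) : (p ^ k) ^ p * p ≤ Nat.card G := by
  have hp : p.Prime := Fact.out
  by_contra hcon
  push Not at hcon
  obtain ⟨H, ⟨e⟩⟩ := hG (A p k) (mem_fam.2 (Or.inr ⟨MulEquiv.refl _⟩))
  obtain ⟨K, ⟨f⟩⟩ := hG (F p k) (mem_fam.2 (Or.inl ⟨MulEquiv.refl _⟩))
  have hHc : Nat.card H = (p ^ k) ^ p := by rw [← Nat.card_congr e.toEquiv, card_A]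
  have hHp : IsPGroup p H := by
    apply IsPGroup.of_card (n := k * p)
    rw [hHc, pow_mul]
  have hKp : IsPGroup p K := by
    intro x
    refine ⟨1, ?_⟩
    rw [pow_one]
    have h1 : (f.symm x : F p k) ^ p = 1 := by
      apply Subtype.ext
      rw [Subgroup.coe_pow]
      exact F_exp _ (f.symm x).2
    have h2 := congrArg f h1
    rwa [map_pow, MulEquiv.apply_symm_apply, map_one] at h2
  obtain ⟨P, hP⟩ := hHp.exists_le_sylow
  obtain ⟨R, hR⟩ := hKp.exists_le_sylow
  -- the Sylow subgroup `P` is equal to `H`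
  have hPc : Nat.card P = p ^ (Nat.card G).factorization p := P.card_eq_multiplicity
  have h1 : (p ^ k) ^ p ∣ Nat.card P := by
    rw [← hHc]
    exact Subgroup.card_dvd_of_le hP
  have h2 : Nat.card P < p ^ (k * p + 1) := by
    rw [pow_succ, pow_mul]
    exact (Nat.le_of_dvd Nat.card_pos (Subgroup.card_subgroup_dvd_card (P : Subgroup G))).trans_lt
      hcon
  have h3 : Nat.card P = (p ^ k) ^ p := by
    rw [hPc] at h1 h2 ⊢
    rw [← pow_mul] at h1 ⊢
    have h4 := (Nat.pow_dvd_pow_iff_le_right hp.one_lt).1 h1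
    have h5 := (Nat.pow_lt_pow_iff_right hp.one_lt).1 h2
    congr 1
    omega
  have h4 : H = (P : Subgroup G) := Subgroup.eq_of_le_of_card_ge hP (by rw [h3, hHc])
  have hPcomm : ∀ x y : P, x * y = y * x := by
    intro x y
    have hx : (x : G) ∈ H := by rw [h4]; exact x.2
    have hy : (y : G) ∈ H := by rw [h4]; exact y.2
    have h5 : (⟨x, hx⟩ : H) * ⟨y, hy⟩ = ⟨y, hy⟩ * ⟨x, hx⟩ := by
      apply e.symm.injective
      rw [map_mul, map_mul, mul_comm]
    have h6 : (x : G) * (y : G) = (y : G) * (x : G) := congrArg Subtype.val h5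
    exact Subtype.ext h6
  obtain ⟨a, ha, b, hb, hab⟩ := F_noncomm (p := p) (k := k) hp2 hk
  apply hab
  have g := Sylow.equiv R P
  have h6 : ∀ x y : R, x * y = y * x := by
    intro x y
    apply g.injective
    rw [map_mul, map_mul, hPcomm]
  have h7 : f ⟨a, ha⟩ * f ⟨b, hb⟩ = f ⟨b, hb⟩ * f ⟨a, ha⟩ := by
    have h8 := h6 ⟨f ⟨a, ha⟩, hR (f ⟨a, ha⟩).2⟩ ⟨f ⟨b, hb⟩, hR (f ⟨b, hb⟩).2⟩
    have h9 : (f ⟨a, ha⟩ : G) * (f ⟨b, hb⟩ : G) = (f ⟨b, hb⟩ : G) * (f ⟨a, ha⟩ : G) :=
      congrArg Subtype.val h8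
    exact Subtype.ext h9
  rw [← map_mul, ← map_mul] at h7
  exact congrArg Subtype.val (f.injective h7)

/-- no minimum cover is an LCM group -/
theorem not_lcm {p k : ℕ} [Fact p.Prime] (hp2 : p ≠ 2) (hk : 2 ≤ k) (G : Type) [Group G]
    (hG : IsMinCover (fam p k) G) : ¬ IsLCM G := by
  intro hL
  have hp : p.Prime := Fact.out
  obtain ⟨hfin, hcov, hmin⟩ := hG
  have hc : Nat.card G = (p ^ k) ^ p * p := by
    apply le_antisymm
    · rw [← card_W]
      exact hmin (W p k) inferInstance (cover_W p k)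
    · exact card_cover hp2 (by omega) G hcov
  obtain ⟨H, ⟨e⟩⟩ := hcov (A p k) (mem_fam.2 (Or.inr ⟨MulEquiv.refl _⟩))
  obtain ⟨K, ⟨f⟩⟩ := hcov (F p k) (mem_fam.2 (Or.inl ⟨MulEquiv.refl _⟩))
  have hHc : Nat.card H = (p ^ k) ^ p := by rw [← Nat.card_congr e.toEquiv, card_A]
  have hHi : H.index = p := by
    have h1 := H.card_mul_index
    rw [hHc, hc] at h1
    exact Nat.eq_of_mul_eq_mul_left (pow_pos (pow_pos hp.pos k) p) h1
  have hHn : H.Normal := by
    apply Subgroup.normal_of_index_eq_minFac_card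
    rw [hHi, hc, ← pow_mul, ← pow_succ, hp.pow_minFac (Nat.succ_ne_zero _)]
  have h1 := main hp hL H K hHi (by
    intro a ha b hb
    have h5 : (⟨a, ha⟩ : H) * ⟨b, hb⟩ = ⟨b, hb⟩ * ⟨a, ha⟩ := by
      apply e.symm.injective
      rw [map_mul, map_mul, mul_comm]
    exact congrArg Subtype.val h5) (by
    intro a ha hap
    have h5 : (e.symm ⟨a, ha⟩) ^ p = 1 := by
      rw [← map_pow]
      have : (⟨a, ha⟩ : H) ^ p = 1 := Subtype.ext hap
      rw [this, map_one]
    obtain ⟨b, hb⟩ := A_pow hk _ h5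
    refine ⟨e b, (e b).2, ?_⟩
    have h6 : (e b) ^ p = ⟨a, ha⟩ := by
      rw [← map_pow, hb, MulEquiv.apply_symm_apply]
    exact congrArg Subtype.val h6) (by
    intro x hx
    have h5 : (f.symm ⟨x, hx⟩ : F p k) ^ p = 1 := by
      apply Subtype.ext
      rw [Subgroup.coe_pow]
      exact F_exp _ (f.symm ⟨x, hx⟩).2
    have h6 := congrArg f h5
    rw [map_pow, MulEquiv.apply_symm_apply, map_one] at h6
    exact congrArg Subtype.val h6)
  obtain ⟨a, ha, b, hb, hab⟩ := F_noncomm (p := p) (k := k) hp2 (by omega)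
  apply hab
  have h7 : f ⟨a, ha⟩ * f ⟨b, hb⟩ = f ⟨b, hb⟩ * f ⟨a, ha⟩ :=
    Subtype.ext (h1 _ (f ⟨a, ha⟩).2 _ (f ⟨b, hb⟩).2)
  rw [← map_mul, ← map_mul] at h7
  exact congrArg Subtype.val (f.injective h7)

theorem fam_injective {p : ℕ} [Fact p.Prime] (hp2 : p ≠ 2) {k l : ℕ} (hl : l ≠ 0)
    (h : fam p k = fam p l) : k = l := by
  have hp : p.Prime := Fact.out
  have h1 : cls (A p k) ∈ fam p l := by
    rw [← h]
    exact mem_fam.2 (Or.inr ⟨MulEquiv.refl _⟩)
  rw [mem_fam] at h1
  rcases h1 with ⟨⟨e⟩⟩ | ⟨⟨e⟩⟩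
  · exfalso
    obtain ⟨a, ha, b, hb, hab⟩ := F_noncomm (p := p) (k := l) hp2 hl
    apply hab
    have h2 : (⟨a, ha⟩ : F p l) * ⟨b, hb⟩ = ⟨b, hb⟩ * ⟨a, ha⟩ := by
      apply e.symm.injective
      rw [map_mul, map_mul, mul_comm]
    exact congrArg Subtype.val h2
  · have h2 := Nat.card_congr e.toEquiv
    rw [card_A, card_A, ← pow_mul, ← pow_mul] at h2
    have h3 := Nat.pow_right_injective hp.two_le h2
    exact Nat.eq_of_mul_eq_mul_right hp.pos h3

/-- For every odd prime `p` there are infinitely many finite sets `𝓕` of (isomorphism classes of)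
LCM `p`-groups such that no minimum cover of `𝓕` is an LCM group. -/
theorem result (p : ℕ) (hp : p.Prime) (hp2 : p ≠ 2) :
    {𝓕 : Finset IsoClass |
      (∀ (F : Type) [Group F], cls F ∈ 𝓕 → Finite F ∧ IsPGroup p F ∧ IsLCM F) ∧
      ∀ (G : Type) [Group G], IsMinCover 𝓕 G → ¬ IsLCM G}.Infinite := by
  have := Fact.mk hp
  apply Set.infinite_of_injective_forall_mem (f := fun k : ℕ => fam p (k + 2))
  · intro k l h
    have := fam_injective hp2 (by omega) h
    omega
  · intro k
    refine ⟨?_, fun G _ hG => not_lcm hp2 (by omega) G hG⟩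
    intro G _ hG
    rw [mem_fam] at hG
    rcases hG with ⟨⟨e⟩⟩ | ⟨⟨e⟩⟩
    · have hfin : Finite G := Finite.of_equiv _ e.symm.toEquiv
      have h1 : ∀ x : F p (k + 2), x ^ p = 1 := by
        intro x
        apply Subtype.ext
        rw [Subgroup.coe_pow]
        exact F_exp _ x.2
      refine ⟨hfin, ?_, isLCM_congr e.symm (isLCM_exp hp h1)⟩
      have h2 : IsPGroup p (F p (k + 2)) := fun x => ⟨1, by rw [pow_one]; exact h1 x⟩
      exact h2.of_equiv e.symm
    · have hfin : Finite G := Finite.of_equiv _ e.symm.toEquiv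
      refine ⟨hfin, ?_, isLCM_congr e.symm (isLCM_comm fun x y => mul_comm x y)⟩
      have h2 : IsPGroup p (A p (k + 2)) := by
        apply IsPGroup.of_card (n := (k + 2) * p)
        rw [card_A, pow_mul]
      exact h2.of_equiv e.symm

end Pool.Agent.Results.MP_8c719a_al.MinimumCovers
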